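import Pool.Agent.Run7.h378.PS.Stm

/-! Project PS, piece W -/

set_option autoImplicit false

namespace Pool.Agent.Run7.h644.PS

open MvPolynomial Run7.h378.PS

theorem wX (j : ℕ) : IsWeightedHomogeneous (fun j : ℕ => j) (X j : MvPolynomial ℕ ℝ) j :=
  isWeightedHomogeneous_X ℝ (fun j : ℕ => j) j

theorem wmul {P Q : MvPolynomial ℕ ℝ} {a b c : ℕ} (hP : IsWeightedHomogeneous (fun j : ℕ => j) P a)
    (hQ : IsWeightedHomogeneous (fun j : ℕ => j) Q b) (h : a + b = c) :
    IsWeightedHomogeneous (fun j : ℕ => j) (P * Q) c := by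
  subst h
  exact hP.mul hQ

theorem wpow {P : MvPolynomial ℕ ℝ} {a c : ℕ} (n : ℕ)
    (hP : IsWeightedHomogeneous (fun j : ℕ => j) P a) (h : n * a = c) :
    IsWeightedHomogeneous (fun j : ℕ => j) (P ^ n) c := by
  subst h
  have := hP.pow n
  simpa using this

theorem wsub {P Q : MvPolynomial ℕ ℝ} {c : ℕ} (hP : IsWeightedHomogeneous (fun j : ℕ => j) P c)
    (hQ : IsWeightedHomogeneous (fun j : ℕ => j) Q c) :
    IsWeightedHomogeneous (fun j : ℕ => j) (P - Q) c := by
  have h1 := (weightedHomogeneousSubmodule ℝ (fun j : ℕ => j) c).sub_mem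
    ((mem_weightedHomogeneousSubmodule ℝ _ c P).2 hP) ((mem_weightedHomogeneousSubmodule ℝ _ c Q).2 hQ)
  exact (mem_weightedHomogeneousSubmodule ℝ _ c _).1 h1

theorem wadd {P Q : MvPolynomial ℕ ℝ} {c : ℕ} (hP : IsWeightedHomogeneous (fun j : ℕ => j) P c)
    (hQ : IsWeightedHomogeneous (fun j : ℕ => j) Q c) :
    IsWeightedHomogeneous (fun j : ℕ => j) (P + Q) c := by
  have h1 := (weightedHomogeneousSubmodule ℝ (fun j : ℕ => j) c).add_mem
    ((mem_weightedHomogeneousSubmodule ℝ _ c P).2 hP) ((mem_weightedHomogeneousSubmodule ℝ _ c Q).2 hQ)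
  exact (mem_weightedHomogeneousSubmodule ℝ _ c _).1 h1

theorem gg_hom : IsWeightedHomogeneous (fun j : ℕ => j) gg 20 := by
  unfold gg hh
  have h2 : (2 : MvPolynomial ℕ ℝ) = C 2 := by rw [map_ofNat]
  refine wadd (wmul (wX 2) (b := 18) ?_ (by norm_num)) (wX 20)
  refine wsub (wadd (wsub (wadd ?_ ?_) ?_) ?_) ?_
  · exact wmul (wpow 2 (wX 4) rfl) (wX 10) (by norm_num)
  · exact wpow 3 (wX 6) (by norm_num)
  · refine wmul (wmul (wmul (a := 0) ?_ (wX 4) rfl) (wX 6) rfl) (wX 8) (by norm_num)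
    rw [h2]
    exact isWeightedHomogeneous_C _ _
  · exact wmul (wX 8) (wX 10) (by norm_num)
  · exact wmul (wX 6) (wX 12) (by norm_num)

/-- the polynomials in the variables with index in `[2, 20]` -/
theorem vars_ok (j : ℕ) (hj : j ∈ (gg).vars) : 2 ≤ j ∧ j ≤ 20 := by
  classical
  let T : Finset ℕ := {2, 4, 6, 8, 10, 12, 20}
  have hX : ∀ i ∈ T, (X i : MvPolynomial ℕ ℝ) ∈ MvPolynomial.supported ℝ (T : Set ℕ) := by
    intro i hi
    exact (MvPolynomial.X_mem_supported).2 (by exact_mod_cast hi)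
  have h : gg ∈ MvPolynomial.supported ℝ (T : Set ℕ) := by
    unfold gg hh
    have a2 := hX 2 (by simp [T])
    have a4 := hX 4 (by simp [T])
    have a6 := hX 6 (by simp [T])
    have a8 := hX 8 (by simp [T])
    have a10 := hX 10 (by simp [T])
    have a12 := hX 12 (by simp [T])
    have a20 := hX 20 (by simp [T])
    have n2 : (2 : MvPolynomial ℕ ℝ) ∈ MvPolynomial.supported ℝ (T : Set ℕ) :=
      ofNat_mem _ 2
    refine add_mem (mul_mem a2 ?_) a20
    refine sub_mem (add_mem (sub_mem (add_mem ?_ ?_) ?_) ?_) ?_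
    · exact mul_mem (pow_mem a4 2) a10
    · exact pow_mem a6 3
    · exact mul_mem (mul_mem (mul_mem n2 a4) a6) a8
    · exact mul_mem a8 a10
    · exact mul_mem a6 a12
  have h1 := MvPolynomial.mem_supported.1 h
  have h2 := h1 (by exact_mod_cast hj)
  have h3 : j ∈ T := by exact_mod_cast h2
  simp only [T, Finset.mem_insert, Finset.mem_singleton] at h3
  omega

theorem t_W : S_W := ⟨gg_hom, vars_ok⟩

end Pool.Agent.Run7.h644.PS
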